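import Pool.Agent.KS6_62.Vass.Family

/-!
# The worst-case ambiguity of all monotone Boolean combinations of VASS languages

For all `k_1, …, k_r ≥ 1` there are languages `L_1, …, L_r`, with `L_i` recognised by a
`k_i`-ambiguous VASS of dimension one, such that for every monotone Boolean combination
`⋃_{S ∈ 𝒮} ⋂_{i ∈ S} L_i` (`𝒮` a non-empty antichain of non-empty subsets of `{1, …, r}`) the least
ambiguity of a VASS recognising it is exactly `∑_{S ∈ 𝒮} ∏_{i ∈ S} k_i`.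
-/

set_option autoImplicit false

namespace Pool.Agent.Results.MP_bb7684_lc.MonotoneCombinations

open List Pool.Agent.Results.MP_bb7684_lc.Tight Pool.Agent.KS6_62.Vass

/-- `L` is recognised by a `k`-ambiguous VASS of dimension `d`: every word has at most `k` accepting
runs. -/
def AmbDim {σ : Type} (d k : ℕ) (L : Set (List σ)) : Prop :=
  ∃ (Q : Type) (_ : Finite Q) (V : VASS Q σ d), (∀ w, (V.Acc w).encard ≤ k) ∧ V.L = L

section
variable {r : ℕ} (k : Fin r → ℕ)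

/-- the letters -/
abbrev P : Type := Σ i : Fin r, Fin (k i)

/-- the number of the letters -/
abbrev KK : ℕ := Fintype.card (P k)

/-- the numbering of the letters -/
noncomputable def idx : P k ≃ Fin (KK k) := Fintype.equivFin (P k)

/-- the sets for the `i`-th language -/
noncomputable def eL (i : Fin r) : Fin (k i) → Fin 1 → Option (Fin (KK k)) :=
  fun a _ => some (idx k ⟨i, a⟩)

/-- the `i`-th language -/
noncomputable def LL (i : Fin r) : Set (List (Fin (KK k + KK k))) := (VI (eL k i)).L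

/-- the choices for the family `𝒮` -/
abbrev JJ (𝒮 : Finset (Finset (Fin r))) : Type :=
  Σ S : {S // S ∈ 𝒮}, ((i : {x // x ∈ S.1}) → Fin (k i))

open Classical in
/-- the sets for the family `𝒮` -/
noncomputable def eS (𝒮 : Finset (Finset (Fin r))) : JJ k 𝒮 → Fin r → Option (Fin (KK k)) :=
  fun j m => if h : m ∈ j.1.1 then some (idx k ⟨m, j.2 ⟨m, h⟩⟩) else none

theorem card_JJ (𝒮 : Finset (Finset (Fin r))) :
    Nat.card (JJ k 𝒮) = ∑ S ∈ 𝒮, ∏ i ∈ S, k i := by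
  classical
  rw [Nat.card_eq_fintype_card, Fintype.card_sigma]
  have h : ∀ S : {S // S ∈ 𝒮}, Fintype.card ((i : {x // x ∈ S.1}) → Fin (k i)) =
      ∏ i ∈ S.1, k i := by
    intro S
    rw [Fintype.card_pi]
    simp only [Fintype.card_fin]
    exact Finset.prod_coe_sort S.1 k
  rw [Finset.sum_congr rfl fun S _ => h S]
  exact Finset.sum_coe_sort 𝒮 fun S => ∏ i ∈ S, k i

theorem mem_LL (hk : ∀ i, 0 < k i) (i : Fin r) (w : List (Fin (KK k + KK k))) :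
    w ∈ LL k i ↔ w.Pairwise (· ≤ ·) ∧ ∃ a : Fin (k i),
      w.count ((idx k ⟨i, a⟩).natAdd _) ≤ w.count ((idx k ⟨i, a⟩).castAdd _) := by
  have := Fin.pos_iff_nonempty.1 (hk i)
  rw [LL, VI_lang]
  refine and_congr_right fun _ => exists_congr fun a => ?_
  constructor
  · intro h
    exact h 0 _ rfl
  · intro h m z hz
    obtain rfl := Option.some.inj hz
    exact h

theorem nonempty_JJ (hk : ∀ i, 0 < k i) (𝒮 : Finset (Finset (Fin r))) (hne : 𝒮.Nonempty) :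
    Nonempty (JJ k 𝒮) := by
  obtain ⟨S, hS⟩ := hne
  exact ⟨⟨⟨S, hS⟩, fun i => ⟨0, hk i⟩⟩⟩

theorem lang_eq (hk : ∀ i, 0 < k i) (𝒮 : Finset (Finset (Fin r))) (hne : 𝒮.Nonempty)
    (h𝒮 : ∀ S ∈ 𝒮, S.Nonempty) :
    (VI (eS k 𝒮)).L = ⋃ S ∈ 𝒮, ⋂ i ∈ S, LL k i := by
  classical
  have := nonempty_JJ k hk 𝒮 hne
  ext w
  rw [VI_lang]
  simp only [Set.mem_iUnion, Set.mem_iInter, mem_LL k hk]
  constructor
  · rintro ⟨hw, ⟨⟨S, hS⟩, j⟩, hj⟩
    refine ⟨S, hS, fun i hi => ⟨hw, j ⟨i, hi⟩, ?_⟩⟩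
    exact hj i _ (by simp [eS, hi])
  · rintro ⟨S, hS, h⟩
    obtain ⟨i0, hi0⟩ := h𝒮 S hS
    refine ⟨(h i0 hi0).1, ⟨⟨S, hS⟩, fun i => (h i i.2).2.choose⟩, ?_⟩
    intro m z hz
    simp only [eS] at hz
    split_ifs at hz with hm
    obtain rfl := Option.some.inj hz
    exact (h m hm).2.choose_spec

theorem anti (𝒮 : Finset (Finset (Fin r)))
    (ha : IsAntichain (· ⊆ ·) (𝒮 : Set (Finset (Fin r)))) (i j : JJ k 𝒮)
    (h : ∀ m z, eS k 𝒮 i m = some z → ∃ m', eS k 𝒮 j m' = some z) : i = j := by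
  classical
  obtain ⟨⟨S, hS⟩, f⟩ := i
  obtain ⟨⟨S', hS'⟩, f'⟩ := j
  have key : ∀ m (hm : m ∈ S), ∃ hm' : m ∈ S', f ⟨m, hm⟩ = f' ⟨m, hm'⟩ := by
    intro m hm
    obtain ⟨m', h'⟩ := h m (idx k ⟨m, f ⟨m, hm⟩⟩) (by simp [eS, hm])
    simp only [eS] at h'
    split_ifs at h' with hm'
    have h2 := (idx k).injective (Option.some.inj h')
    obtain ⟨rfl, h3⟩ := Sigma.mk.inj_iff.1 h2
    exact ⟨hm', (eq_of_heq h3).symm⟩
  have hSS : S = S' := by
    by_contra hne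
    exact ha hS hS' hne fun m hm => (key m hm).1
  subst hSS
  have hff : f = f' := by
    funext i
    obtain ⟨hm, h⟩ := key i i.2
    exact h
  rw [hff]

end

/-- **Theorem.** Let `k_1, …, k_r ≥ 1`. (1) There are languages `L_1, …, L_r` over a finite alphabet,
`L_i` recognised by a `k_i`-ambiguous VASS of dimension one, such that for every non-empty antichain
`𝒮` of non-empty subsets of `{1, …, r}` the language `⋃_{S ∈ 𝒮} ⋂_{i ∈ S} L_i` is recognised by an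
`N`-ambiguous VASS of dimension `r`, where `N = ∑_{S ∈ 𝒮} ∏_{i ∈ S} k_i`, but by no `n`-ambiguous
VASS of any dimension with `n < N`.
(2) In particular, for all `k₁, k₂ ≥ 1` there are a `k₁`-ambiguous and a `k₂`-ambiguous VASS language
whose intersection is not an `n`-ambiguous VASS language for any `n < k₁ k₂`. -/
theorem result :
    (∀ (r : ℕ) (k : Fin r → ℕ), (∀ i, 0 < k i) →
      ∃ (σ : Type) (_ : Finite σ) (L : Fin r → Set (List σ)),
        (∀ i, AmbDim 1 (k i) (L i)) ∧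
        ∀ 𝒮 : Finset (Finset (Fin r)), 𝒮.Nonempty → (∀ S ∈ 𝒮, S.Nonempty) →
          IsAntichain (· ⊆ ·) (𝒮 : Set (Finset (Fin r))) →
          AmbDim r (∑ S ∈ 𝒮, ∏ i ∈ S, k i) (⋃ S ∈ 𝒮, ⋂ i ∈ S, L i) ∧
          ∀ d n : ℕ, n < ∑ S ∈ 𝒮, ∏ i ∈ S, k i → ¬ AmbDim d n (⋃ S ∈ 𝒮, ⋂ i ∈ S, L i)) ∧
    ∀ k₁ k₂ : ℕ, 0 < k₁ → 0 < k₂ →
      ∃ (σ : Type) (_ : Finite σ) (L₁ L₂ : Set (List σ)),
        (∃ d, AmbDim d k₁ L₁) ∧ (∃ d, AmbDim d k₂ L₂) ∧
        ∀ n : ℕ, 1 ≤ n → n ≤ k₁ * k₂ - 1 → ¬ ∃ d, AmbDim d n (L₁ ∩ L₂) := by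
  have main : ∀ (r : ℕ) (k : Fin r → ℕ), (∀ i, 0 < k i) →
      ∃ (σ : Type) (_ : Finite σ) (L : Fin r → Set (List σ)),
        (∀ i, AmbDim 1 (k i) (L i)) ∧
        ∀ 𝒮 : Finset (Finset (Fin r)), 𝒮.Nonempty → (∀ S ∈ 𝒮, S.Nonempty) →
          IsAntichain (· ⊆ ·) (𝒮 : Set (Finset (Fin r))) →
          AmbDim r (∑ S ∈ 𝒮, ∏ i ∈ S, k i) (⋃ S ∈ 𝒮, ⋂ i ∈ S, L i) ∧
          ∀ d n : ℕ, n < ∑ S ∈ 𝒮, ∏ i ∈ S, k i → ¬ AmbDim d n (⋃ S ∈ 𝒮, ⋂ i ∈ S, L i) := by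
    intro r k hk
    refine ⟨Fin (KK k + KK k), inferInstance, LL k, ?_, ?_⟩
    · intro i
      have := Fin.pos_iff_nonempty.1 (hk i)
      refine ⟨_, inferInstance, VI (eL k i), fun w => ?_, rfl⟩
      refine (VI_amb (eL k i) w).trans ?_
      simp
    · intro 𝒮 hne h𝒮 ha
      have hJ := nonempty_JJ k hk 𝒮 hne
      have hL := lang_eq k hk 𝒮 hne h𝒮
      refine ⟨⟨_, inferInstance, VI (eS k 𝒮), fun w => ?_, hL⟩, ?_⟩
      · refine (VI_amb (eS k 𝒮) w).trans ?_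
        rw [card_JJ]
      · rintro d n hn ⟨Q, _, V, h1, h2⟩
        have := lower (eS k 𝒮) (anti k 𝒮 ha) V (h2.trans hL.symm) n h1
        rw [card_JJ] at this
        omega
  refine ⟨main, fun k₁ k₂ h₁ h₂ => ?_⟩
  obtain ⟨σ, hσ, L, hL1, hL2⟩ := main 2 ![k₁, k₂] (by
    intro i
    fin_cases i
    · exact h₁
    · exact h₂)
  refine ⟨σ, hσ, L 0, L 1, ⟨1, hL1 0⟩, ⟨1, hL1 1⟩, ?_⟩
  rintro n hn1 hn2 ⟨d, hd⟩
  have h := (hL2 {Finset.univ} (by simp) (by simp) (by simp)).2 d n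
  refine h ?_ ?_
  · simp
    omega
  · have e : (⋃ S ∈ ({Finset.univ} : Finset (Finset (Fin 2))), ⋂ i ∈ S, L i) = L 0 ∩ L 1 := by
      ext w
      simp [Fin.forall_fin_two]
    rw [e]
    exact hd

end Pool.Agent.Results.MP_bb7684_lc.MonotoneCombinations
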